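import Pool.Agent.H41.SS.Targets
import Pool.Agent.H97.RK.DX

/-!
# Row DGX of ss_modules: a fixed assignment is good for almost all formulas with distinct variables
-/

set_option autoImplicit false

namespace Pool.Agent.H86.SSM

open Finset Pool.Agent.H97.RK Pool.Agent.H97.RL Pool.Agent.H41.SS

/-- the tangent of the function in the induction for the Maclaurin inequality -/
theorem tangent (b c N : ℝ) (hb : 0 ≤ b) (hc : 0 ≤ c) (k : ℕ) (hk : (k : ℝ) + 1 ≤ N) :
    (N * b - (N - 1) * c) * c ^ k ≤ b ^ k * (b - (N - k - 1) * (c - b)) := by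
  induction k with
  | zero => simp; linarith
  | succ k ih =>
    push_cast at hk ⊢
    have h1 := ih (by linarith)
    have h2 : (N * b - (N - 1) * c) * c ^ (k + 1) ≤
        b ^ k * (b - (N - k - 1) * (c - b)) * c := by
      rw [pow_succ, ← mul_assoc]
      exact mul_le_mul_of_nonneg_right h1 hc
    refine h2.trans ?_
    have h3 : b ^ (k + 1) * (b - (N - (k + 1) - 1) * (c - b)) -
        b ^ k * (b - (N - k - 1) * (c - b)) * c = b ^ k * ((N - k - 1) * (c - b) ^ 2) := by
      rw [pow_succ]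
      ring
    have h4 : 0 ≤ b ^ k * ((N - k - 1) * (c - b) ^ 2) := by
      have : 0 ≤ N - k - 1 := by linarith
      positivity
    linarith

open Classical in
/-- the clauses with distinct variables in `V` and literals in `L` -/
noncomputable def cL {n : ℕ} (L : Finset (Fin n × Bool)) (k : ℕ) (V : Finset (Fin n)) :
    Finset (Fin k → Fin n × Bool) :=
  univ.filter fun g => (Function.Injective fun i => (g i).1) ∧ ∀ i, g i ∈ L ∧ (g i).1 ∈ V

theorem mem_cL {n : ℕ} {L : Finset (Fin n × Bool)} {k : ℕ} {V : Finset (Fin n)}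
    {g : Fin k → Fin n × Bool} : g ∈ cL L k V ↔
      (Function.Injective fun i => (g i).1) ∧ ∀ i, g i ∈ L ∧ (g i).1 ∈ V := by
  classical
  unfold cL
  rw [mem_filter]
  exact ⟨fun h => h.2, fun h => ⟨mem_univ _, h⟩⟩

/-- number of the literals with the variable `v` -/
def wt {n : ℕ} (L : Finset (Fin n × Bool)) (v : Fin n) : ℕ := (L.filter fun l => l.1 = v).card

theorem card_cL_succ {n : ℕ} (L : Finset (Fin n × Bool)) (k : ℕ) (V : Finset (Fin n)) :
    (cL L (k + 1) V).card ≤ ∑ v ∈ V, wt L v * (cL L k (V.erase v)).card := by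
  classical
  have h1 : (cL L (k + 1) V).card ≤
      ((L.filter fun l => l.1 ∈ V).sigma fun l => cL L k (V.erase l.1)).card := by
    refine Finset.card_le_card_of_injOn (fun g => ⟨g 0, fun i => g i.succ⟩) ?_ ?_
    · intro g hg
      rw [mem_coe, mem_cL] at hg
      obtain ⟨hinj, hg⟩ := hg
      rw [mem_coe, mem_sigma, mem_filter, mem_cL]
      refine ⟨hg 0, ?_, ?_⟩
      · intro i j hij
        exact Fin.succ_injective _ (hinj hij)
      · intro i
        refine ⟨(hg i.succ).1, ?_⟩
        rw [mem_erase]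
        refine ⟨?_, (hg i.succ).2⟩
        intro h
        exact Fin.succ_ne_zero i (hinj h)
    · intro g _ g' _ h
      have h2 : g 0 = g' 0 := congrArg Sigma.fst h
      have h3 : (fun i : Fin k => g i.succ) = fun i => g' i.succ := by
        have := (Sigma.mk.inj_iff.1 h).2
        exact eq_of_heq this
      funext i
      refine Fin.cases h2 (fun i => ?_) i
      exact congrFun h3 i
  refine h1.trans (le_of_eq ?_)
  rw [card_sigma]
  have h2 : ∑ l ∈ L.filter (fun l => l.1 ∈ V), (cL L k (V.erase l.1)).card =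
      ∑ v ∈ V, ∑ l ∈ (L.filter fun l => l.1 ∈ V).filter (fun l => l.1 = v),
        (cL L k (V.erase l.1)).card :=
    (sum_fiberwise_of_maps_to (fun l hl => (mem_filter.1 hl).2) _).symm
  rw [h2]
  refine sum_congr rfl fun v hv => ?_
  have h3 : (L.filter fun l => l.1 ∈ V).filter (fun l => l.1 = v) = L.filter fun l => l.1 = v := by
    ext l
    simp only [mem_filter]
    constructor
    · rintro ⟨⟨h, _⟩, h'⟩
      exact ⟨h, h'⟩
    · rintro ⟨h, h'⟩
      exact ⟨⟨h, h' ▸ hv⟩, h'⟩
  rw [h3, wt, card_eq_sum_ones, sum_mul]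
  refine sum_congr rfl fun l hl => ?_
  rw [(mem_filter.1 hl).2, one_mul]

/-- Maclaurin -/
theorem mac {n : ℕ} (L : Finset (Fin n × Bool)) (k : ℕ) : ∀ (V : Finset (Fin n)), k ≤ V.card →
    ((cL L k V).card : ℝ) * (V.card : ℝ) ^ k ≤
      (∑ v ∈ V, (wt L v : ℝ)) ^ k * (V.card.descFactorial k : ℝ) := by
  classical
  induction k with
  | zero =>
    intro V _
    simp only [pow_zero, mul_one, one_mul, Nat.descFactorial_zero, Nat.cast_one]
    have : (cL L 0 V).card ≤ 1 := by
      refine (card_le_univ _).trans ?_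
      rw [Fintype.card_fun, Fintype.card_fin, pow_zero]
    exact_mod_cast this
  | succ k ih =>
    intro V hV
    obtain ⟨N, hN⟩ : ∃ N : ℕ, V.card = N + 1 := ⟨V.card - 1, by omega⟩
    obtain ⟨a, ha⟩ : ∃ a : ℝ, a = ∑ v ∈ V, (wt L v : ℝ) := ⟨_, rfl⟩
    have ha0 : 0 ≤ a := by
      rw [ha]
      exact sum_nonneg fun _ _ => Nat.cast_nonneg _
    rw [← ha, hN]
    rw [hN] at hV
    have hkN : k ≤ N := by omega
    have h1 : ((cL L (k + 1) V).card : ℝ) ≤
        ∑ v ∈ V, (wt L v : ℝ) * (cL L k (V.erase v)).card := by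
      exact_mod_cast card_cL_succ L k V
    have h2 : ∀ v ∈ V, ((cL L k (V.erase v)).card : ℝ) * (N : ℝ) ^ k ≤
        (a - wt L v) ^ k * (N.descFactorial k : ℝ) := by
      intro v hv
      have hc : (V.erase v).card = N := by
        rw [card_erase_of_mem hv, hN, Nat.add_sub_cancel]
      have h3 := ih (V.erase v) (by rw [hc]; exact hkN)
      rw [hc] at h3
      have h4 : ∑ u ∈ V.erase v, (wt L u : ℝ) = a - wt L v := by
        rw [ha, ← add_sum_erase V _ hv]
        ring
      rw [h4] at h3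
      exact h3
    rcases Nat.eq_zero_or_pos N with hN0 | hN0
    · subst hN0
      have hk0 : k = 0 := by omega
      subst hk0
      have h3 : ∀ v ∈ V, (wt L v : ℝ) * (cL L 0 (V.erase v)).card ≤ wt L v := by
        intro v hv
        have h4 := h2 v hv
        simp only [pow_zero, mul_one, one_mul, Nat.descFactorial_zero, Nat.cast_one] at h4
        calc (wt L v : ℝ) * (cL L 0 (V.erase v)).card ≤ wt L v * 1 :=
              mul_le_mul_of_nonneg_left h4 (Nat.cast_nonneg _)
          _ = wt L v := mul_one _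
      have h4 := h1.trans (sum_le_sum h3)
      rw [← ha] at h4
      simpa using h4
    · have hNr : (0 : ℝ) < N := by exact_mod_cast hN0
      obtain ⟨b, hb⟩ : ∃ b : ℝ, b = a / (N + 1) := ⟨_, rfl⟩
      have hb0 : 0 ≤ b := by rw [hb]; positivity
      have hab : a = (N + 1) * b := by rw [hb]; field_simp
      have hwa : ∀ v ∈ V, (wt L v : ℝ) ≤ a := by
        intro v hv
        rw [ha]
        exact single_le_sum (f := fun v => (wt L v : ℝ)) (fun _ _ => Nat.cast_nonneg _) hv
      have h5 : ∀ v ∈ V, (wt L v : ℝ) * ((a - wt L v) / N) ^ k ≤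
          b ^ k * (b - ((N : ℝ) - k) * ((a - wt L v) / N - b)) := by
        intro v hv
        have h6 := tangent b ((a - wt L v) / N) ((N : ℝ) + 1) hb0
          (div_nonneg (sub_nonneg.2 (hwa v hv)) hNr.le) k (by
            have : (k : ℝ) ≤ N := by exact_mod_cast hkN
            linarith)
        have h7 : ((N : ℝ) + 1) * b - ((N : ℝ) + 1 - 1) * ((a - wt L v) / N) = wt L v := by
          rw [← hab]
          field_simp
          ring
        rw [h7] at h6
        refine h6.trans (le_of_eq ?_)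
        ring
      have h8 : ∑ v ∈ V, (wt L v : ℝ) * ((a - wt L v) / N) ^ k ≤ (N + 1) * b ^ (k + 1) := by
        refine (sum_le_sum h5).trans (le_of_eq ?_)
        rw [← mul_sum, sum_sub_distrib, ← mul_sum, sum_sub_distrib, ← sum_div, sum_sub_distrib,
          ← ha, sum_const, sum_const, hN, nsmul_eq_mul, nsmul_eq_mul, hab]
        push_cast
        field_simp
        ring
      have h9 : ((cL L (k + 1) V).card : ℝ) ≤
          (N.descFactorial k : ℝ) * ((N + 1) * b ^ (k + 1)) := by
        refine h1.trans ?_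
        have h10 : ∑ v ∈ V, (wt L v : ℝ) * (cL L k (V.erase v)).card ≤
            ∑ v ∈ V, (N.descFactorial k : ℝ) * ((wt L v : ℝ) * ((a - wt L v) / N) ^ k) := by
          refine sum_le_sum fun v hv => ?_
          have h11 : ((cL L k (V.erase v)).card : ℝ) ≤
              (N.descFactorial k : ℝ) * ((a - wt L v) / N) ^ k := by
            rw [div_pow, mul_div_assoc', le_div_iff₀ (by positivity)]
            refine (h2 v hv).trans (le_of_eq (mul_comm _ _))
          calc (wt L v : ℝ) * (cL L k (V.erase v)).card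
              ≤ wt L v * ((N.descFactorial k : ℝ) * ((a - wt L v) / N) ^ k) :=
                mul_le_mul_of_nonneg_left h11 (Nat.cast_nonneg _)
            _ = _ := by ring
        refine h10.trans ?_
        rw [← mul_sum]
        exact mul_le_mul_of_nonneg_left h8 (Nat.cast_nonneg _)
      have h12 : (((N + 1).descFactorial (k + 1) : ℕ) : ℝ) =
          ((N : ℝ) + 1) * (N.descFactorial k : ℝ) := by
        rw [Nat.succ_descFactorial_succ]
        push_cast
        ring
      rw [h12]
      push_cast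
      calc ((cL L (k + 1) V).card : ℝ) * ((N : ℝ) + 1) ^ (k + 1)
          ≤ (N.descFactorial k : ℝ) * ((N + 1) * b ^ (k + 1)) * ((N : ℝ) + 1) ^ (k + 1) :=
            mul_le_mul_of_nonneg_right h9 (by positivity)
        _ = _ := by
            rw [hab, mul_pow]
            ring

theorem card_univ_wt {n : ℕ} (L : Finset (Fin n × Bool)) : ∑ v, wt L v = L.card := by
  unfold wt
  exact (card_eq_sum_card_fiberwise (f := Prod.fst) (s := L) (t := univ)
    (fun _ _ => mem_coe.2 (mem_univ _))).symm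

open Classical in
theorem card_clD' {n k : ℕ} (L : Finset (Fin n × Bool)) (a : ℕ) (ha : L.card ≤ a) (hk : k ≤ n)
    (hn : 1 ≤ n) (P : (Fin k → Fin n × Bool) → Prop) (hP : ∀ g, P g → ∀ i, g i ∈ L) :
    (((Om n k).filter P).card : ℝ) ≤ ((a : ℝ) / (2 * n)) ^ k * (Om n k).card := by
  have hn' : (0 : ℝ) < n := by exact_mod_cast hn
  have h1 := mac L k (univ : Finset (Fin n)) (by rw [card_univ, Fintype.card_fin]; exact hk)
  rw [card_univ, Fintype.card_fin] at h1
  have h2 : ∑ v, (wt L v : ℝ) = L.card := by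
    exact_mod_cast card_univ_wt L
  rw [h2] at h1
  have h3 : ((Om n k).filter P).card ≤ (cL L k univ).card := by
    refine card_le_card fun g hg => ?_
    rw [mem_filter] at hg
    rw [mem_cL]
    exact ⟨mem_Om.1 hg.1, fun i => ⟨hP g hg.2 i, mem_univ _⟩⟩
  have h4 : (((Om n k).filter P).card : ℝ) ≤ (cL L k univ).card := by exact_mod_cast h3
  have h5 : ((a : ℝ) / (2 * n)) ^ k * (Om n k).card =
      (a : ℝ) ^ k * n.descFactorial k / (n : ℝ) ^ k := by
    rw [card_Om_real, div_pow, mul_pow]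
    field_simp
  rw [h5, le_div_iff₀ (by positivity)]
  have h6 : (L.card : ℝ) ≤ a := by exact_mod_cast ha
  calc (((Om n k).filter P).card : ℝ) * (n : ℝ) ^ k
      ≤ (cL L k univ).card * (n : ℝ) ^ k := mul_le_mul_of_nonneg_right h4 (by positivity)
    _ ≤ (L.card : ℝ) ^ k * n.descFactorial k := h1
    _ ≤ (a : ℝ) ^ k * n.descFactorial k := by gcongr

open Classical in
theorem card_Dist (n k m : ℕ) :
    (univ.filter fun F : Fml n k m => Dist F).card = (Om n k).card ^ m := by
  have h1 : (univ.filter fun F : Fml n k m => Dist F) =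
      Fintype.piFinset fun _ : Fin m => Om n k := by
    ext F
    rw [mem_filter, Fintype.mem_piFinset, Dist_iff]
    exact ⟨fun h => h.2, fun h => ⟨mem_univ _, h⟩⟩
  rw [h1, Fintype.card_piFinset_const]

theorem pf_DGX : T_DGX := by
  classical
  intro n k m D d w hn hk hdw x
  rw [card_Dist]
  obtain ⟨N, hN⟩ : ∃ N : ℝ, N = (Om n k).card := ⟨_, rfl⟩
  push_cast
  rw [← hN]
  have hn0 : (0 : ℝ) < n := by exact_mod_cast hn
  have hNpos : 0 < N := by
    rw [hN]
    exact_mod_cast card_Om_pos hk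
  obtain ⟨a₀, ha₀⟩ : ∃ a₀ : ℕ, a₀ = n - d + w := ⟨_, rfl⟩
  have hdn : d ≤ n := by omega
  have ha₀' : (a₀ : ℝ) = (n : ℝ) - d + w := by
    rw [ha₀]
    push_cast [hdn]
    ring
  rw [← ha₀']
  obtain ⟨P, hP⟩ : ∃ P : Finset (Fin n) × Finset (Fin n) → (Fin k → Fin n × Bool) → Prop,
      ∀ a h, P a h ↔
        ∀ i, (h i).1 ∈ (a.1 ∪ a.2)ᶜ ∪ a.2 ∧ ((h i).1 ∈ (a.1 ∪ a.2)ᶜ → x (h i).1 ≠ (h i).2) :=
    ⟨fun a h => ∀ i, (h i).1 ∈ (a.1 ∪ a.2)ᶜ ∪ a.2 ∧
      ((h i).1 ∈ (a.1 ∪ a.2)ᶜ → x (h i).1 ≠ (h i).2), fun _ _ => Iff.rfl⟩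
  let I : Finset (Finset (Fin n) × Finset (Fin n)) :=
    (powersetCard d univ ×ˢ powersetCard w univ).filter fun a => Disjoint a.1 a.2
  let S : Finset (Fin n) × Finset (Fin n) → Finset (Fml n k m) := fun a =>
    univ.filter fun F => (∀ c, F c ∈ Om n k) ∧ D ≤ (univ.filter fun c => P a (F c)).card
  have hsub : (univ.filter fun F : Fml n k m => Dist F ∧ ¬ Gd F D d w x) ⊆ I.biUnion S := by
    intro F hF
    rw [mem_filter] at hF
    have hX := hF.2.2
    unfold Gd at hX
    push Not at hX
    obtain ⟨T, W, hdis, hWw, hTW, hD⟩ := hX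
    have hcU : (T ∪ W)ᶜ.card = n - (T.card + W.card) := by
      rw [card_compl, Fintype.card_fin, card_union_of_disjoint hdis]
    obtain ⟨Z, hZ1, hZ2⟩ := exists_subset_card_eq (s := (T ∪ W)ᶜ) (n := d) (by omega)
    have hWZ : W ⊆ Zᶜ := by
      intro v hv
      rw [mem_compl]
      intro hvZ
      have := hZ1 hvZ
      rw [mem_compl] at this
      exact this (mem_union_right _ hv)
    obtain ⟨W', hW1, hW2, hW3⟩ := exists_subsuperset_card_eq hWZ hWw (by
      rw [card_compl, Fintype.card_fin, hZ2]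
      omega)
    have hdZW : Disjoint Z W' := by
      rw [disjoint_left]
      intro v hv hv'
      exact (mem_compl.1 (hW2 hv')) hv
    rw [mem_biUnion]
    refine ⟨(Z, W'), ?_, ?_⟩
    · rw [mem_filter, mem_product]
      exact ⟨⟨mem_powersetCard.2 ⟨subset_univ _, hZ2⟩, mem_powersetCard.2 ⟨subset_univ _, hW3⟩⟩,
        hdZW⟩
    · rw [mem_filter]
      refine ⟨mem_univ _, (Dist_iff F).1 hF.2.1, hD.trans (card_le_card ?_)⟩
      intro c hc
      rw [mem_filter] at hc ⊢
      refine ⟨mem_univ _, (hP _ _).2 fun i => ?_⟩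
      obtain ⟨-, hc1, hc2⟩ := hc
      have h1 : (F c i).1 ∉ Z := fun h => (mem_compl.1 (hZ1 h)) (hc1 i)
      constructor
      · rw [mem_union, mem_compl, mem_union]
        by_cases h2 : (F c i).1 ∈ W'
        · exact Or.inr h2
        · exact Or.inl (fun h => h.elim h1 h2)
      · intro h2
        rw [mem_compl, mem_union, not_or] at h2
        apply hc2 i
        rcases mem_union.1 (hc1 i) with h3 | h3
        · exact h3
        · exact absurd (hW1 h3) h2.2
  have hb : ∀ a ∈ I, ((S a).card : ℝ) ≤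
      m.choose D * ((a₀ : ℝ) / (2 * n)) ^ (k * D) * N ^ m := by
    intro a ha
    rw [mem_filter, mem_product, mem_powersetCard, mem_powersetCard] at ha
    obtain ⟨⟨⟨-, hZ⟩, ⟨-, hW⟩⟩, hdis⟩ := ha
    have h1 : ((S a).card : ℝ) * N ^ D ≤
        m.choose D * (((Om n k).filter (P a)).card : ℝ) ^ D * N ^ m := by
      rw [hN]
      exact count_over' m D (Om n k) (P a) (S a) (fun F hF => (mem_filter.1 hF).2)
    have h2 : (((Om n k).filter (P a)).card : ℝ) ≤ ((a₀ : ℝ) / (2 * n)) ^ k * N := by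
      rw [hN]
      have h3 := Pool.Agent.H66.RKS.card_lit x (a.1 ∪ a.2)ᶜ a.2
      have h4 : ((a.1 ∪ a.2)ᶜ).card = n - (d + w) := by
        rw [card_compl, Fintype.card_fin, card_union_of_disjoint hdis, hZ, hW]
      rw [h4, hW] at h3
      refine card_clD' _ a₀ (h3.trans (by omega)) hk hn (P a) ?_
      intro g hg i
      rw [mem_filter]
      exact ⟨mem_univ _, (hP a g).1 hg i⟩
    have h4 : ((S a).card : ℝ) * N ^ D ≤
        (m.choose D * ((a₀ : ℝ) / (2 * n)) ^ (k * D) * N ^ m) * N ^ D := by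
      calc ((S a).card : ℝ) * N ^ D
          ≤ m.choose D * (((Om n k).filter (P a)).card : ℝ) ^ D * N ^ m := h1
        _ ≤ m.choose D * (((a₀ : ℝ) / (2 * n)) ^ k * N) ^ D * N ^ m := by
            gcongr
        _ = (m.choose D * ((a₀ : ℝ) / (2 * n)) ^ (k * D) * N ^ m) * N ^ D := by
            rw [mul_pow, ← pow_mul]; ring
    exact le_of_mul_le_mul_right h4 (by positivity)
  have hI : (I.card : ℝ) ≤ (n.choose d : ℝ) * n.choose w := by
    have h1 : I.card ≤ (powersetCard d (univ : Finset (Fin n)) ×ˢ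
        powersetCard w (univ : Finset (Fin n))).card := card_filter_le _ _
    rw [card_product, card_powersetCard, card_powersetCard, card_univ, Fintype.card_fin] at h1
    exact_mod_cast h1
  calc ((univ.filter fun F : Fml n k m => Dist F ∧ ¬ Gd F D d w x).card : ℝ)
      ≤ ((I.biUnion S).card : ℝ) := by exact_mod_cast card_le_card hsub
    _ ≤ ((∑ a ∈ I, (S a).card : ℕ) : ℝ) := by exact_mod_cast card_biUnion_le
    _ = ∑ a ∈ I, ((S a).card : ℝ) := by push_cast; rfl
    _ ≤ ∑ _a ∈ I, m.choose D * ((a₀ : ℝ) / (2 * n)) ^ (k * D) * N ^ m := sum_le_sum hb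
    _ = I.card * (m.choose D * ((a₀ : ℝ) / (2 * n)) ^ (k * D) * N ^ m) := by
        rw [sum_const, nsmul_eq_mul]
    _ ≤ (n.choose d : ℝ) * n.choose w *
        (m.choose D * ((a₀ : ℝ) / (2 * n)) ^ (k * D) * N ^ m) := by
        gcongr
    _ = _ := by ring

end Pool.Agent.H86.SSM
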