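import Pool.Agent.H41.SS.Targets

/-!
# Row STP of ss_modules: one step of the path
-/

set_option autoImplicit false

namespace Pool.Agent.H86.SSM

open Finset Pool.Agent.H97.RK Pool.Agent.H97.RL Pool.Agent.H41.SS

theorem vs_mono' {n : ℕ} {C D : Clause n} (h : C ⊆ D) : vs C ⊆ vs D := image_subset_image h

/-- the line of the next premise is falsified and its variables are known -/
theorem step_aux {n : ℕ} {C E : Clause n} {y y' : Fin n → Bool} {A : Finset (Fin n)} {v : Fin n}
    {s : Bool} (hF : Falsified C y) (hv : vs C ⊆ A) (hy : ∀ u ∈ insert v A, y' u = y u)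
    (hs : y' v ≠ s) (hl : E ⊆ insert (v, s) C) : Falsified E y' ∧ vs E ⊆ insert v A := by
  constructor
  · intro l hla
    rcases mem_insert.1 (hl hla) with h | h
    · rw [h]
      exact hs
    · rw [hy l.1 (mem_insert_of_mem (hv (mem_image_of_mem _ h)))]
      exact hF l h
  · intro u hu
    obtain ⟨l, hla, rfl⟩ := mem_image.1 hu
    rcases mem_insert.1 (hl hla) with h | h
    · rw [h]
      exact mem_insert_self _ _
    · exact mem_insert_of_mem (hv (mem_image_of_mem _ h))

theorem pf_STP (hASK : Pool.Agent.H41.SS.T_ASK) : Pool.Agent.H41.SS.T_STP := by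
  intro n k m F D d w b hb S r line rule hR i x y A W J hi hG hSt hx hF hv hA
  have hC := hR.2.2 i hi
  rcases hr : rule i with _ | a | ⟨v, a, b'⟩
  · exfalso
    rw [hr] at hC
    obtain ⟨c, hc⟩ := hC
    have h1 : ∀ p, F c p ∈ line i := fun p => hc (mem_image_of_mem _ (mem_univ p))
    have h2 : ∀ p, (F c p).1 ∈ A := fun p => hv (mem_image_of_mem _ (h1 p))
    have h3 : ∀ p, y (F c p).1 ≠ (F c p).2 := fun p => hF _ (h1 p)
    have h4 := hSt.inv {c} (by rw [card_singleton]; have := hSt.lt; omega)
      (by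
        intro c' hc' p _
        rw [mem_singleton] at hc'
        subst hc'
        exact h3 p)
    have h5 : VS F {c} \ (A ∪ W) = ∅ := by
      rw [sdiff_eq_empty_iff_subset]
      intro u hu
      unfold VS vF at hu
      rw [singleton_biUnion, mem_image] at hu
      obtain ⟨p, -, rfl⟩ := hu
      exact mem_union_left _ (h2 p)
    rw [h5, card_singleton, card_empty] at h4
    omega
  · rw [hr] at hC
    obtain ⟨hai, hl⟩ := hC
    exact ⟨by simp, a, y, A, W, J, hai, hSt, hx, fun l h => hF l (hl h), (vs_mono' hl).trans hv,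
      Subset.rfl, fun u _ => rfl, Or.inl ⟨rfl, rfl⟩⟩
  · rw [hr] at hC
    obtain ⟨hai, hbi, hla, hlb⟩ := hC
    refine ⟨by simp, ?_⟩
    obtain ⟨y', W', J', h1, h2, h3, h4⟩ := hASK n k m F D d w b hb x y A W J v hG hSt hx
      (by have := card_insert_le v A; omega)
    have hyA : ∀ u ∈ insert v A, y' u = y u := by
      intro u hu
      apply h2
      rcases mem_insert.1 hu with h | h
      · rw [h]
        exact mem_insert_self _ _
      · exact mem_insert_of_mem (mem_union_left _ h)
    have hyW : ∀ u ∈ A ∪ W, y' u = y u := fun u hu => h2 u (mem_insert_of_mem hu)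
    by_cases hyx : y' v = true
    · obtain ⟨h5, h6⟩ := step_aux (s := false) hF hv hyA (by rw [hyx]; simp) hlb
      exact ⟨b', y', insert v A, W', J', hbi, h4, h3, h5, h6, h1, hyW,
        Or.inr ⟨v, a, rfl, Or.inr ⟨rfl, hyx⟩⟩⟩
    · obtain ⟨h5, h6⟩ := step_aux (s := true) hF hv hyA hyx hla
      exact ⟨a, y', insert v A, W', J', hai, h4, h3, h5, h6, h1, hyW,
        Or.inr ⟨v, b', rfl, Or.inl ⟨rfl, by simpa using hyx⟩⟩⟩

end Pool.Agent.H86.SSM
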